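import Mathlib

/-! Choice of the set of prime powers. -/

namespace Pool.Helper30.Rudin

open Finset

theorem rpow_le_of_pow_le {e : ℕ} (he : 1 ≤ e) {x : ℝ} (hx : 0 ≤ x) {y : ℝ}
    (h : x ^ e ≤ y) : x ≤ y ^ (1 / (e : ℝ)) := by
  have he' : (0 : ℝ) < e := by exact_mod_cast he
  have h1 : x = (x ^ e) ^ (1 / (e : ℝ)) := by
    rw [← Real.rpow_natCast x e, ← Real.rpow_mul hx]
    rw [mul_one_div_cancel he'.ne', Real.rpow_one]
  rw [h1]
  exact Real.rpow_le_rpow (by positivity) h (by positivity)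

theorem choose_bound (e : ℕ) (he : 1 ≤ e) : ∃ C : ℝ, 0 ≤ C ∧
    ∀ (I : Finset ℕ) (M : ℕ → ℕ) (N R : ℕ), 1 ≤ N →
      (∀ p ∈ I, ∀ r ∈ I, M p = M r → p = r) → (∀ p ∈ I, 1 ≤ M p) →
      2 * N ≤ ∏ p ∈ I, M p →
      (∀ J ⊆ I, 2 * N ≤ ∏ p ∈ J, M p → R ≤ ((I \ J).card + 1) * 2 ^ J.card) →
      (R : ℝ) ≤ C * ((N : ℝ) ^ (2 / (e : ℝ)) + I.card) := by
  classical
  refine ⟨2 ^ (2 ^ (e + 2)) + 2 ^ (e + 2) + 16, by positivity, ?_⟩
  intro I M N R hN hinj hM1 hI hJ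
  set w := I.card with hw
  have he' : (0 : ℝ) < e := by exact_mod_cast he
  have hN1 : (1 : ℝ) ≤ N := by exact_mod_cast hN
  have hpow1 : (1 : ℝ) ≤ (N : ℝ) ^ (2 / (e : ℝ)) :=
    Real.one_le_rpow hN1 (by positivity)
  have hR0 : R ≤ 2 ^ w := by
    have := hJ I (le_refl _) hI
    simpa using this
  have hR0' : (R : ℝ) ≤ 2 ^ w := by exact_mod_cast hR0
  have hfact : ∀ A : ℝ, 0 ≤ A → A ≤ 2 ^ (2 ^ (e + 2)) + 2 ^ (e + 2) + 16 →
      A * (N : ℝ) ^ (2 / (e : ℝ)) ≤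
        (2 ^ (2 ^ (e + 2)) + 2 ^ (e + 2) + 16) * ((N : ℝ) ^ (2 / (e : ℝ)) + w) := by
    intro A hA0 hA
    have h1 : (0 : ℝ) ≤ w := by positivity
    have h2 : A * (N : ℝ) ^ (2 / (e : ℝ)) ≤
        (2 ^ (2 ^ (e + 2)) + 2 ^ (e + 2) + 16) * (N : ℝ) ^ (2 / (e : ℝ)) :=
      mul_le_mul_of_nonneg_right hA (by positivity)
    have h3 : (0 : ℝ) ≤ (2 ^ (2 ^ (e + 2)) + 2 ^ (e + 2) + 16) * w := by positivity
    linarith [mul_add ((2 : ℝ) ^ (2 ^ (e + 2)) + 2 ^ (e + 2) + 16) ((N : ℝ) ^ (2 / (e : ℝ))) w]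
  have hpe : (0 : ℝ) ≤ 2 ^ (e + 2) := by positivity
  have hpee : (0 : ℝ) ≤ 2 ^ (2 ^ (e + 2)) := by positivity
  by_cases hc1 : 2 ^ (e * w) ≤ N ^ 2
  · -- few primes compared with `N`
    have h1 : ((2 : ℝ) ^ w) ^ e ≤ (N : ℝ) ^ 2 := by
      rw [← pow_mul, mul_comm w e]
      exact_mod_cast hc1
    have h2 := rpow_le_of_pow_le he (by positivity) h1
    rw [← Real.rpow_natCast (N : ℝ) 2, ← Real.rpow_mul (by positivity)] at h2
    have h3 : ((2 : ℕ) : ℝ) * (1 / (e : ℝ)) = 2 / e := by push_cast; ring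
    rw [h3] at h2
    have h4 := hfact 1 (by norm_num) (by linarith)
    linarith
  push Not at hc1
  by_cases hc2 : w < 2 ^ (e + 2)
  · have h1 : (2 : ℝ) ^ w ≤ 2 ^ (2 ^ (e + 2)) :=
      pow_le_pow_right₀ (by norm_num) hc2.le
    have h2 := hfact (2 ^ (2 ^ (e + 2))) (by positivity) (by linarith)
    have h3 : (2 : ℝ) ^ (2 ^ (e + 2)) * 1 ≤ 2 ^ (2 ^ (e + 2)) * (N : ℝ) ^ (2 / (e : ℝ)) :=
      mul_le_mul_of_nonneg_left hpow1 (by positivity)
    linarith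
  push Not at hc2
  set b := w / 2 with hb
  have hbw : w ≤ 2 * b + 1 := by omega
  have hbw2 : 2 * b ≤ w := by omega
  have hbe : 2 ^ (e + 1) ≤ b := by
    have : 2 ^ (e + 2) = 2 * 2 ^ (e + 1) := by ring
    omega
  have he2 : e + 3 ≤ 2 ^ (e + 2) := by
    have : e + 2 < 2 ^ (e + 2) := Nat.lt_two_pow_self
    omega
  have hb2 : 2 ≤ b := by
    have : 2 ^ 1 ≤ 2 ^ (e + 1) := Nat.pow_le_pow_right (by norm_num) (by omega)
    omega
  have hex : ∃ k, 2 * N ≤ b ^ k := by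
    refine ⟨2 * N, ?_⟩
    exact (Nat.lt_two_pow_self).le.trans (Nat.pow_le_pow_left hb2 _)
  set k := Nat.find hex with hk
  have hk1 : 2 * N ≤ b ^ k := Nat.find_spec hex
  have hk0 : k ≠ 0 := by
    intro h
    rw [h, pow_zero] at hk1
    omega
  have hk2 : b ^ (k - 1) < 2 * N := by
    have := Nat.find_min hex (m := k - 1) (by omega)
    push Not at this
    exact this
  have hkb : k ≤ b := by
    by_contra hgt
    push Not at hgt
    have h1 : b ^ b ≤ b ^ (k - 1) := Nat.pow_le_pow_right (by omega) (by omega)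
    have h2 : (2 ^ (e + 1)) ^ b ≤ b ^ b := Nat.pow_le_pow_left hbe b
    have h3 : (2 ^ (e + 1)) ^ b < 2 * N := by omega
    have h4 : ((2 ^ (e + 1)) ^ b) ^ 2 < (2 * N) ^ 2 := Nat.pow_lt_pow_left h3 (by norm_num)
    have h5 : (2 * N) ^ 2 = 2 ^ 2 * N ^ 2 := by ring
    have h6 : 2 ^ 2 * N ^ 2 ≤ 2 ^ 2 * 2 ^ (e * w) := Nat.mul_le_mul_left _ hc1.le
    have h7 : 2 ^ 2 * 2 ^ (e * w) ≤ ((2 ^ (e + 1)) ^ b) ^ 2 := by
      rw [← pow_add, ← pow_mul, ← pow_mul]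
      apply Nat.pow_le_pow_right (by norm_num)
      have h8 : (e + 1) * w ≤ (e + 1) * (2 * b + 1) := Nat.mul_le_mul_left _ hbw
      have h9 : (e + 1) * (2 * b + 1) = (e + 1) * (b * 2) + (e + 1) := by ring
      have h10 : (e + 1) * w = e * w + w := by ring
      omega
    omega
  -- the large prime powers
  set Ib := I.filter (fun p => b < M p) with hIb
  have hsmall : (I.filter (fun p => ¬ b < M p)).card ≤ b := by
    have h1 : (I.filter (fun p => ¬ b < M p)).card ≤ (Finset.Icc 1 b).card := by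
      apply Finset.card_le_card_of_injOn M
      · intro p hp
        rw [Finset.mem_coe] at hp
        obtain ⟨hpI, hpb⟩ := Finset.mem_filter.mp hp
        rw [Finset.mem_coe, Finset.mem_Icc]
        exact ⟨hM1 p hpI, by omega⟩
      · intro p hp r hr hpr
        rw [Finset.mem_coe] at hp hr
        exact hinj p (Finset.mem_filter.mp hp).1 r (Finset.mem_filter.mp hr).1 hpr
    simpa using h1
  have hbig : b ≤ Ib.card := by
    have h1 := Finset.card_filter_add_card_filter_not (s := I) (fun p => b < M p)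
    rw [← hIb, ← hw] at h1
    omega
  obtain ⟨J, hJb, hJk⟩ := Finset.exists_subset_card_eq (hkb.trans hbig)
  have hJI : J ⊆ I := hJb.trans (Finset.filter_subset _ _)
  have hprodJ : 2 * N ≤ ∏ p ∈ J, M p := by
    have h1 : b ^ J.card ≤ ∏ p ∈ J, M p := by
      rw [← Finset.prod_const]
      exact Finset.prod_le_prod' (fun p hp => (Finset.mem_filter.mp (hJb hp)).2.le)
    rw [hJk] at h1
    omega
  have hR := hJ J hJI hprodJ
  have hR1 : R ≤ (w + 1) * 2 ^ k := by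
    rw [hJk] at hR
    refine hR.trans (Nat.mul_le_mul_right _ ?_)
    have : (I \ J).card ≤ I.card := Finset.card_le_card Finset.sdiff_subset
    omega
  by_cases hc3 : N ≤ b ^ e
  · have h1 : 2 * N ≤ b ^ (e + 1) := by
      rw [pow_succ, mul_comm]
      exact Nat.mul_le_mul hc3 hb2
    have h2 : k ≤ e + 1 := Nat.find_min' hex h1
    have h3 : 2 ^ k ≤ 2 ^ (e + 1) := Nat.pow_le_pow_right (by norm_num) h2
    have h4 : R ≤ 2 ^ (e + 2) * w := by
      calc R ≤ (w + 1) * 2 ^ k := hR1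
        _ ≤ (w + w) * 2 ^ (e + 1) := Nat.mul_le_mul (by omega) h3
        _ = 2 ^ (e + 2) * w := by ring
    have h5 : (R : ℝ) ≤ 2 ^ (e + 2) * w := by exact_mod_cast h4
    have h6 : (2 : ℝ) ^ (e + 2) * w ≤ (2 ^ (2 ^ (e + 2)) + 2 ^ (e + 2) + 16) * w :=
      mul_le_mul_of_nonneg_right (by linarith) (by positivity)
    have h7 : (0 : ℝ) ≤ (2 ^ (2 ^ (e + 2)) + 2 ^ (e + 2) + 16) * (N : ℝ) ^ (2 / (e : ℝ)) := by
      positivity
    rw [mul_add]
    linarith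
  · push Not at hc3
    have h1 : (2 ^ (k - 1)) ^ e < 2 * N := by
      have h2 : (2 ^ (k - 1)) ^ e = (2 ^ e) ^ (k - 1) := by rw [← pow_mul, ← pow_mul, mul_comm]
      rw [h2]
      refine lt_of_le_of_lt ?_ hk2
      apply Nat.pow_le_pow_left
      have : 2 ^ e ≤ 2 ^ (e + 1) := Nat.pow_le_pow_right (by norm_num) (by omega)
      omega
    have h3 : (2 ^ (k - 1) * b) ^ e ≤ 2 * N * N := by
      rw [mul_pow]
      exact Nat.mul_le_mul h1.le hc3.le
    have h4 : ((2 ^ (k - 1) * b : ℕ) : ℝ) ≤ (2 * (N : ℝ) ^ 2) ^ (1 / (e : ℝ)) := by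
      apply rpow_le_of_pow_le he (by positivity)
      have : ((2 ^ (k - 1) * b : ℕ) : ℝ) ^ e ≤ ((2 * N * N : ℕ) : ℝ) := by exact_mod_cast h3
      refine this.trans (le_of_eq ?_)
      push_cast; ring
    have h5 : (2 * (N : ℝ) ^ 2) ^ (1 / (e : ℝ)) ≤ 2 * (N : ℝ) ^ (2 / (e : ℝ)) := by
      rw [Real.mul_rpow (by norm_num) (by positivity)]
      rw [← Real.rpow_natCast (N : ℝ) 2, ← Real.rpow_mul (by positivity)]
      have h6 : ((2 : ℕ) : ℝ) * (1 / (e : ℝ)) = 2 / e := by push_cast; ring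
      rw [h6]
      apply mul_le_mul_of_nonneg_right _ (by positivity)
      have h7 : (2 : ℝ) ^ (1 / (e : ℝ)) ≤ 2 ^ (1 : ℝ) := by
        apply Real.rpow_le_rpow_of_exponent_le (by norm_num)
        rw [div_le_one he']
        exact_mod_cast he
      rwa [Real.rpow_one] at h7
    have h8 : R ≤ 8 * (2 ^ (k - 1) * b) := by
      have h9 : 2 ^ k = 2 * 2 ^ (k - 1) := by
        rw [← pow_succ']
        congr 1
        omega
      calc R ≤ (w + 1) * 2 ^ k := hR1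
        _ ≤ (4 * b) * 2 ^ k := Nat.mul_le_mul_right _ (by omega)
        _ = 8 * (2 ^ (k - 1) * b) := by rw [h9]; ring
    have h10 : (R : ℝ) ≤ 8 * ((2 ^ (k - 1) * b : ℕ) : ℝ) := by exact_mod_cast h8
    have h11 : (R : ℝ) ≤ 16 * (N : ℝ) ^ (2 / (e : ℝ)) := by linarith
    exact h11.trans (hfact 16 (by norm_num) (by linarith))

end Pool.Helper30.Rudin
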