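import Mathlib

/-! Vectors with pairwise negative weighted inner products. -/

namespace Pool.Helper30.Rudin

open Finset

theorem card_le_of_neg {ι K : Type*} (T : Finset ι) (I : Finset K) (w : K → ℝ)
    (hw : ∀ k ∈ I, 0 ≤ w k) (v : ι → K → ℝ)
    (h : ∀ x ∈ T, ∀ y ∈ T, x ≠ y → ∑ k ∈ I, w k * v x k * v y k < 0) :
    T.card ≤ I.card + 1 := by
  classical
  by_contra hcon
  push Not at hcon
  set g : ι → (↥I → ℝ) := fun x k => v x k with hg
  set B : (↥I → ℝ) → (↥I → ℝ) → ℝ := fun a b => ∑ k : ↥I, w k * a k * b k with hB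
  have hBg : ∀ x y, B (g x) (g y) = ∑ k ∈ I, w k * v x k * v y k := by
    intro x y
    simp only [hB, hg]
    exact Finset.sum_coe_sort I (fun k => w k * v x k * v y k)
  have hself : ∀ a : ↥I → ℝ, 0 ≤ B a a := by
    intro a
    apply Finset.sum_nonneg
    intro k _
    have := hw k k.2
    have h2 : w k * a k * a k = w k * (a k * a k) := by ring
    rw [h2]
    exact mul_nonneg this (mul_self_nonneg _)
  have hinj : Set.InjOn g T := by
    intro x hx y hy hxy
    by_contra hne
    have h1 := h x hx y hy hne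
    rw [← hBg x y, ← hxy] at h1
    exact absurd h1 (not_lt.mpr (hself _))
  have hcard : (T.image g).card = T.card := Finset.card_image_of_injOn hinj
  have hfin : Module.finrank ℝ (↥I → ℝ) + 1 < (T.image g).card := by
    rw [hcard, Module.finrank_pi, Fintype.card_coe]
    exact hcon
  obtain ⟨f, hf1, hf2, x0, hx0, hf3⟩ :=
    Module.exists_nontrivial_relation_sum_zero_of_finrank_succ_lt_card hfin
  set t := T.image g with ht
  have hneg : ∀ a ∈ t, ∀ b ∈ t, a ≠ b → B a b < 0 := by
    intro a ha b hb hab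
    obtain ⟨x, hx, rfl⟩ := Finset.mem_image.mp ha
    obtain ⟨y, hy, rfl⟩ := Finset.mem_image.mp hb
    rw [hBg]
    exact h x hx y hy (fun hxy => hab (by rw [hxy]))
  set P : (↥I → ℝ) → ℝ := fun a => max (f a) 0 with hP
  set M : (↥I → ℝ) → ℝ := fun a => max (-f a) 0 with hM
  have hPM : ∀ a, P a - M a = f a := by
    intro a
    simp only [hP, hM]
    rcases le_total (f a) 0 with h1 | h1
    · rw [max_eq_right h1, max_eq_left (by linarith)]; ring
    · rw [max_eq_left h1, max_eq_right (by linarith)]; ring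
  have hPM0 : ∀ a, P a * M a = 0 := by
    intro a
    simp only [hP, hM]
    rcases le_total (f a) 0 with h1 | h1
    · rw [max_eq_right h1]; ring
    · rw [max_eq_right (by linarith : -f a ≤ 0)]; ring
  have hPnn : ∀ a, 0 ≤ P a := fun a => le_max_right _ _
  have hMnn : ∀ a, 0 ≤ M a := fun a => le_max_right _ _
  have hcoord : ∀ k : ↥I, ∑ a ∈ t, P a * a k = ∑ a ∈ t, M a * a k := by
    intro k
    have h1 := congrFun hf1 k
    rw [Finset.sum_apply] at h1
    simp only [Pi.smul_apply, smul_eq_mul, Pi.zero_apply] at h1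
    rw [← sub_eq_zero, ← Finset.sum_sub_distrib, ← h1]
    apply Finset.sum_congr rfl
    intro a _
    rw [← hPM a]; ring
  have hexp : ∑ a ∈ t, ∑ b ∈ t, P a * M b * B a b =
      ∑ k : ↥I, w k * ((∑ a ∈ t, P a * a k) * (∑ b ∈ t, M b * b k)) := by
    have e1 : ∀ k : ↥I, w k * ((∑ a ∈ t, P a * a k) * (∑ b ∈ t, M b * b k)) =
        ∑ a ∈ t, ∑ b ∈ t, P a * M b * (w k * a k * b k) := by
      intro k
      rw [Finset.sum_mul_sum, Finset.mul_sum]
      apply Finset.sum_congr rfl
      intro a _
      rw [Finset.mul_sum]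
      apply Finset.sum_congr rfl
      intro b _
      ring
    rw [Finset.sum_congr rfl (fun k _ => e1 k)]
    symm
    rw [Finset.sum_comm]
    apply Finset.sum_congr rfl
    intro a _
    rw [Finset.sum_comm]
    apply Finset.sum_congr rfl
    intro b _
    rw [hB, Finset.mul_sum]
  have hge : 0 ≤ ∑ a ∈ t, ∑ b ∈ t, P a * M b * B a b := by
    rw [hexp]
    apply Finset.sum_nonneg
    intro k _
    rw [hcoord k]
    exact mul_nonneg (hw k k.2) (mul_self_nonneg _)
  -- signs of the relation
  have hterm : ∀ a ∈ t, ∀ b ∈ t, P a * M b * B a b ≤ 0 := by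
    intro a ha b hb
    by_cases hab : a = b
    · rw [hab, hPM0, zero_mul]
    · exact mul_nonpos_of_nonneg_of_nonpos (mul_nonneg (hPnn a) (hMnn b)) (hneg a ha b hb hab).le
  have hzero : ∀ a ∈ t, ∀ b ∈ t, P a * M b * B a b = 0 := by
    have h1 : ∑ a ∈ t, ∑ b ∈ t, P a * M b * B a b ≤ 0 :=
      Finset.sum_nonpos (fun a ha => Finset.sum_nonpos (fun b hb => hterm a ha b hb))
    have h2 : ∑ a ∈ t, ∑ b ∈ t, P a * M b * B a b = 0 := le_antisymm h1 hge
    intro a ha b hb
    have h3 := (Finset.sum_eq_zero_iff_of_nonpos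
      (fun a ha => Finset.sum_nonpos (fun b hb => hterm a ha b hb))).mp h2 a ha
    exact (Finset.sum_eq_zero_iff_of_nonpos (fun b hb => hterm a ha b hb)).mp h3 b hb
  -- there are both a positive and a negative coefficient
  have hpos : ∃ a ∈ t, 0 < f a := by
    by_contra hno
    push Not at hno
    have := (Finset.sum_eq_zero_iff_of_nonpos hno).mp hf2 x0 hx0
    exact hf3 this
  have hnegf : ∃ b ∈ t, f b < 0 := by
    by_contra hno
    push Not at hno
    have := (Finset.sum_eq_zero_iff_of_nonneg hno).mp hf2 x0 hx0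
    exact hf3 this
  obtain ⟨a, ha, hfa⟩ := hpos
  obtain ⟨b, hb, hfb⟩ := hnegf
  have hab : a ≠ b := by
    rintro rfl
    linarith
  have h1 := hzero a ha b hb
  have hPa : 0 < P a := lt_max_of_lt_left hfa
  have hMb : 0 < M b := lt_max_of_lt_left (by linarith)
  have h2 := hneg a ha b hb hab
  have h3 : P a * M b * B a b < 0 := mul_neg_of_pos_of_neg (mul_pos hPa hMb) h2
  linarith

end Pool.Helper30.Rudin
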