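import Mathlib
import Pool.Agent.Helper30.Rudin.Neg

/-! The basic bound: sign classes at some prime powers, negative inner products at the others. -/

namespace Pool.Helper30.Rudin

open Finset

theorem core (S : Finset ℕ) (q N : ℕ) (I : Finset ℕ) (M c : ℕ → ℕ)
    (hM1 : ∀ p ∈ I, 1 ≤ M p)
    (hcop : ∀ p ∈ I, ∀ r ∈ I, p ≠ r → Nat.Coprime (M p) (M r))
    (hprod : q ≤ 2 * ∏ p ∈ I, M p)
    (hor : ∀ p ∈ I, ∀ x ∈ S, ∀ y ∈ S, (c p : ℤ) ∣ (x : ℤ) - y ∨ (c p : ℤ) ∣ (x : ℤ) + y)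
    (hm : ∀ p ∈ I, ∀ x ∈ S, ∀ y ∈ S, (c p : ℤ) ∣ (x : ℤ) - y → (M p : ℤ) ∣ (x : ℤ) - y)
    (hp : ∀ p ∈ I, ∀ x ∈ S, ∀ y ∈ S, (c p : ℤ) ∣ (x : ℤ) + y → (M p : ℤ) ∣ (x : ℤ) + y)
    (hsize : ∀ x ∈ S, ∀ y ∈ S, x ≠ y → |(x : ℤ) - y| * ((x : ℤ) + y) < (q : ℤ) * N)
    (J : Finset ℕ) (hJ : J ⊆ I) (hJN : 2 * N ≤ ∏ p ∈ J, M p) :
    S.card ≤ ((I \ J).card + 1) * 2 ^ J.card := by
  classical
  rcases S.eq_empty_or_nonempty with hS | ⟨m0, hm0⟩
  · simp [hS]
  have hcopZ : ∀ A ⊆ I, Set.Pairwise (A : Set ℕ) (Function.onFun IsCoprime fun p => (M p : ℤ)) := by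
    intro A hA p hp1 r hr1 hpr
    exact Nat.isCoprime_iff_coprime.mpr (hcop p (hA hp1) r (hA hr1) hpr)
  rw [← Finset.card_powerset]
  apply Finset.card_le_mul_card_image_of_maps_to
    (f := fun m : ℕ => J.filter (fun p => (c p : ℤ) ∣ (m : ℤ) - m0))
  · intro m _
    exact Finset.mem_powerset.mpr (Finset.filter_subset _ _)
  intro b _
  apply card_le_of_neg _ (I \ J) (fun p => Real.log (M p))
    (fun p hp1 => Real.log_nonneg (by exact_mod_cast hM1 p (Finset.mem_sdiff.mp hp1).1))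
    (fun (m : ℕ) (p : ℕ) => if (c p : ℤ) ∣ (m : ℤ) - m0 then 1 else -1)
  intro x hx y hy hxy
  obtain ⟨hxS, hxb⟩ := Finset.mem_filter.mp hx
  obtain ⟨hyS, hyb⟩ := Finset.mem_filter.mp hy
  set A := I.filter (fun p => ((c p : ℤ) ∣ (x : ℤ) - m0 ↔ (c p : ℤ) ∣ (y : ℤ) - m0)) with hA
  have hAI : A ⊆ I := Finset.filter_subset _ _
  have hJA : J ⊆ A := by
    intro p hpJ
    rw [hA, Finset.mem_filter]
    refine ⟨hJ hpJ, ?_⟩
    have h1 : p ∈ J.filter (fun p => (c p : ℤ) ∣ (x : ℤ) - m0) ↔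
        p ∈ J.filter (fun p => (c p : ℤ) ∣ (y : ℤ) - m0) := by rw [hxb, hyb]
    simpa [Finset.mem_filter, hpJ] using h1
  -- divisibilities
  have hdivA : ∀ p ∈ A, (M p : ℤ) ∣ (x : ℤ) - y := by
    intro p hpA
    obtain ⟨hpI, hiff⟩ := Finset.mem_filter.mp hpA
    apply hm p hpI x hxS y hyS
    by_cases hc : (c p : ℤ) ∣ (x : ℤ) - m0
    · have h2 := hiff.mp hc
      have := dvd_sub hc h2
      simpa using this
    · have h2 : ¬ (c p : ℤ) ∣ (y : ℤ) - m0 := fun h => hc (hiff.mpr h)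
      have h3 := (hor p hpI x hxS m0 hm0).resolve_left hc
      have h4 := (hor p hpI y hyS m0 hm0).resolve_left h2
      have := dvd_sub h3 h4
      simpa using this
  have hdivN : ∀ p ∈ I \ A, (M p : ℤ) ∣ (x : ℤ) + y := by
    intro p hpA
    obtain ⟨hpI, hpn⟩ := Finset.mem_sdiff.mp hpA
    have hiff : ¬ ((c p : ℤ) ∣ (x : ℤ) - m0 ↔ (c p : ℤ) ∣ (y : ℤ) - m0) := by
      intro h
      exact hpn (Finset.mem_filter.mpr ⟨hpI, h⟩)
    apply hp p hpI x hxS y hyS
    by_cases hc : (c p : ℤ) ∣ (x : ℤ) - m0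
    · have h2 : ¬ (c p : ℤ) ∣ (y : ℤ) - m0 := fun h => hiff ⟨fun _ => h, fun _ => hc⟩
      have h4 := (hor p hpI y hyS m0 hm0).resolve_left h2
      have := dvd_add hc h4
      have e : (x : ℤ) - m0 + (y + m0) = x + y := by ring
      rwa [e] at this
    · have h2 : (c p : ℤ) ∣ (y : ℤ) - m0 := by
        by_contra h
        exact hiff ⟨fun h' => absurd h' hc, fun h' => absurd h' h⟩
      have h3 := (hor p hpI x hxS m0 hm0).resolve_left hc
      have := dvd_add h3 h2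
      have e : (x : ℤ) + m0 + (y - m0) = x + y := by ring
      rwa [e] at this
  set PA := ∏ p ∈ A, M p with hPA
  set PN := ∏ p ∈ I \ A, M p with hPN
  set PJ := ∏ p ∈ J, M p with hPJ
  have hxy' : (x : ℤ) - y ≠ 0 := by
    intro h
    apply hxy
    have : (x : ℤ) = y := by linarith
    exact_mod_cast this
  have h1 : (PA : ℤ) ∣ (x : ℤ) - y := by
    rw [hPA]; push_cast
    exact Finset.prod_dvd_of_coprime (hcopZ A hAI) hdivA
  have h2 : (PN : ℤ) ∣ (x : ℤ) + y := by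
    rw [hPN]; push_cast
    exact Finset.prod_dvd_of_coprime (hcopZ _ Finset.sdiff_subset) hdivN
  have h3 : (PA : ℤ) ≤ |(x : ℤ) - y| :=
    Int.le_of_dvd (abs_pos.mpr hxy') ((dvd_abs _ _).mpr h1)
  have h4 : |(x : ℤ) - y| ≤ (x : ℤ) + y := by
    rw [abs_le]
    constructor
    · have : (0 : ℤ) ≤ x := by positivity
      linarith
    · have : (0 : ℤ) ≤ y := by positivity
      linarith
  have hPApos : 0 < PA := Finset.prod_pos (fun p hp1 => hM1 p (hAI hp1))
  have hPNpos : 0 < PN := Finset.prod_pos (fun p hp1 => hM1 p (Finset.mem_sdiff.mp hp1).1)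
  have hPJpos : 0 < PJ := Finset.prod_pos (fun p hp1 => hM1 p (hJ hp1))
  have hI : ∏ p ∈ I, M p = PN * PA := (Finset.prod_sdiff hAI).symm
  have h5 : (PA : ℤ) * PA < PJ * (PN * PA) := by
    have h6 : (PA : ℤ) * PA ≤ |(x : ℤ) - y| * ((x : ℤ) + y) := by
      have : (0 : ℤ) ≤ PA := by positivity
      exact mul_le_mul h3 (h3.trans h4) this (abs_nonneg _)
    have h7 := hsize x hxS y hyS hxy
    have h8 : (q : ℤ) ≤ 2 * (PN * PA) := by
      rw [hI] at hprod
      exact_mod_cast hprod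
    have h9 : 2 * (N : ℤ) ≤ PJ := by exact_mod_cast hJN
    have h10 : (q : ℤ) * N ≤ (2 * (PN * PA)) * N := mul_le_mul_of_nonneg_right h8 (by positivity)
    have h11 : (2 * ((PN : ℤ) * PA)) * N = (2 * N) * (PN * PA) := by ring
    have h12 : (2 * (N : ℤ)) * (PN * PA) ≤ PJ * (PN * PA) :=
      mul_le_mul_of_nonneg_right h9 (by positivity)
    linarith
  have h13 : (PA : ℤ) < PJ * PN := by
    have hpa : (0 : ℤ) < PA := by exact_mod_cast hPApos
    have h14 : (PA : ℤ) * PA < (PJ * PN) * PA := by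
      have : (PJ : ℤ) * (PN * PA) = (PJ * PN) * PA := by ring
      linarith
    exact lt_of_mul_lt_mul_right h14 hpa.le
  -- the weighted sum
  have hsum : ∑ p ∈ I \ J, Real.log (M p) * (if (c p : ℤ) ∣ (x : ℤ) - m0 then 1 else -1) *
      (if (c p : ℤ) ∣ (y : ℤ) - m0 then 1 else -1) =
      Real.log PA - Real.log PJ - Real.log PN := by
    have e1 : ∀ p ∈ I \ J, Real.log (M p) * (if (c p : ℤ) ∣ (x : ℤ) - m0 then 1 else -1) *
      (if (c p : ℤ) ∣ (y : ℤ) - m0 then 1 else -1) =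
        if p ∈ A then Real.log (M p) else - Real.log (M p) := by
      intro p hp1
      have hpI := (Finset.mem_sdiff.mp hp1).1
      have hAiff : p ∈ A ↔ ((c p : ℤ) ∣ (x : ℤ) - m0 ↔ (c p : ℤ) ∣ (y : ℤ) - m0) := by
        rw [hA, Finset.mem_filter]
        simp [hpI]
      by_cases h1 : (c p : ℤ) ∣ (x : ℤ) - m0 <;> by_cases h2 : (c p : ℤ) ∣ (y : ℤ) - m0
      · rw [if_pos (hAiff.mpr ⟨fun _ => h2, fun _ => h1⟩), if_pos h1, if_pos h2]; ring
      · rw [if_neg (fun h => h2 ((hAiff.mp h).mp h1)), if_pos h1, if_neg h2]; ring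
      · rw [if_neg (fun h => h1 ((hAiff.mp h).mpr h2)), if_neg h1, if_pos h2]; ring
      · rw [if_pos (hAiff.mpr ⟨fun h => absurd h h1, fun h => absurd h h2⟩), if_neg h1,
          if_neg h2]; ring
    rw [Finset.sum_congr rfl e1, Finset.sum_ite]
    have f1 : (I \ J).filter (fun p => p ∈ A) = A \ J := by
      ext p
      simp only [Finset.mem_filter, Finset.mem_sdiff]
      constructor
      · rintro ⟨⟨_, h⟩, h'⟩; exact ⟨h', h⟩
      · rintro ⟨h, h'⟩; exact ⟨⟨hAI h, h'⟩, h⟩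
    have f2 : (I \ J).filter (fun p => p ∉ A) = I \ A := by
      ext p
      simp only [Finset.mem_filter, Finset.mem_sdiff]
      constructor
      · rintro ⟨⟨h, _⟩, h'⟩; exact ⟨h, h'⟩
      · rintro ⟨h, h'⟩; exact ⟨⟨h, fun hj => h' (hJA hj)⟩, h'⟩
    rw [f1, f2, Finset.sum_neg_distrib]
    have g1 : Real.log PA = ∑ p ∈ A, Real.log (M p) := by
      rw [hPA]; push_cast
      apply Real.log_prod
      intro p hp1
      have := hM1 p (hAI hp1)
      positivity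
    have g2 : Real.log PN = ∑ p ∈ I \ A, Real.log (M p) := by
      rw [hPN]; push_cast
      apply Real.log_prod
      intro p hp1
      have := hM1 p (Finset.mem_sdiff.mp hp1).1
      positivity
    have g3 : Real.log PJ = ∑ p ∈ J, Real.log (M p) := by
      rw [hPJ]; push_cast
      apply Real.log_prod
      intro p hp1
      have := hM1 p (hJ hp1)
      positivity
    rw [g1, g2, g3, ← Finset.sum_sdiff hJA]
    ring
  show ∑ p ∈ I \ J, Real.log (M p) * (if (c p : ℤ) ∣ (x : ℤ) - m0 then 1 else -1) *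
      (if (c p : ℤ) ∣ (y : ℤ) - m0 then 1 else -1) < 0
  rw [hsum]
  have h15 : (PA : ℝ) < PJ * PN := by exact_mod_cast h13
  have h16 : Real.log PA < Real.log (PJ * PN) :=
    Real.log_lt_log (by exact_mod_cast hPApos) h15
  rw [Real.log_mul (by positivity) (by positivity)] at h16
  linarith

end Pool.Helper30.Rudin
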