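import Mathlib

/-! Sign classes at all prime powers: small moduli. -/

namespace Pool.Helper30.Rudin

open Finset

/-- a finite set of naturals with all differences multiples of `Q` and of size at most `kQ`. -/
theorem card_le_of_diff (T : Finset ℕ) (Q k : ℕ)
    (h : ∀ x ∈ T, ∀ y ∈ T, x ≤ y → ∃ d ≤ k, y = x + Q * d) : T.card ≤ k + 1 := by
  classical
  rcases T.eq_empty_or_nonempty with hT | hT
  · simp [hT]
  obtain ⟨m, hm, hmin⟩ := Finset.exists_min_image T id hT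
  have hsub : T ⊆ (Finset.range (k + 1)).image (fun d => m + Q * d) := by
    intro y hy
    obtain ⟨d, hd, hyd⟩ := h m hm y hy (hmin y hy)
    exact Finset.mem_image.mpr ⟨d, Finset.mem_range.mpr (by omega), hyd.symm⟩
  calc T.card ≤ _ := Finset.card_le_card hsub
    _ ≤ (Finset.range (k + 1)).card := Finset.card_image_le
    _ = k + 1 := Finset.card_range _

theorem core_small (S : Finset ℕ) (q N : ℕ) (I : Finset ℕ) (M c : ℕ → ℕ)
    (hM1 : ∀ p ∈ I, 1 ≤ M p)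
    (hcop : ∀ p ∈ I, ∀ r ∈ I, p ≠ r → Nat.Coprime (M p) (M r))
    (hprod : q ≤ 2 * ∏ p ∈ I, M p)
    (hor : ∀ p ∈ I, ∀ x ∈ S, ∀ y ∈ S, (c p : ℤ) ∣ (x : ℤ) - y ∨ (c p : ℤ) ∣ (x : ℤ) + y)
    (hm : ∀ p ∈ I, ∀ x ∈ S, ∀ y ∈ S, (c p : ℤ) ∣ (x : ℤ) - y → (M p : ℤ) ∣ (x : ℤ) - y)
    (hsize : ∀ x ∈ S, ∀ y ∈ S, x ≠ y → |(x : ℤ) - y| * ((x : ℤ) + y) < (q : ℤ) * N)
    (k : ℕ) (hk : 2 * N ≤ (k + 1) ^ 2 * ∏ p ∈ I, M p) :
    S.card ≤ (k + 1) * 2 ^ I.card := by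
  classical
  rcases S.eq_empty_or_nonempty with hS | ⟨m0, hm0⟩
  · simp [hS]
  rw [← Finset.card_powerset]
  apply Finset.card_le_mul_card_image_of_maps_to
    (f := fun m : ℕ => I.filter (fun p => (c p : ℤ) ∣ (m : ℤ) - m0))
  · intro m _
    exact Finset.mem_powerset.mpr (Finset.filter_subset _ _)
  intro b _
  set Q := ∏ p ∈ I, M p with hQ
  have hQpos : 0 < Q := Finset.prod_pos hM1
  apply card_le_of_diff _ Q k
  intro x hx y hy hxley
  obtain ⟨hxS, hxb⟩ := Finset.mem_filter.mp hx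
  obtain ⟨hyS, hyb⟩ := Finset.mem_filter.mp hy
  rcases eq_or_lt_of_le hxley with hxy | hxy
  · exact ⟨0, Nat.zero_le _, by rw [hxy]; ring⟩
  have hdiv : ∀ p ∈ I, (M p : ℤ) ∣ (y : ℤ) - x := by
    intro p hpI
    have hiff : (c p : ℤ) ∣ (x : ℤ) - m0 ↔ (c p : ℤ) ∣ (y : ℤ) - m0 := by
      have h1 : p ∈ I.filter (fun p => (c p : ℤ) ∣ (x : ℤ) - m0) ↔
          p ∈ I.filter (fun p => (c p : ℤ) ∣ (y : ℤ) - m0) := by rw [hxb, hyb]
      simpa [Finset.mem_filter, hpI] using h1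
    apply hm p hpI y hyS x hxS
    by_cases hc : (c p : ℤ) ∣ (x : ℤ) - m0
    · have h2 := hiff.mp hc
      have := dvd_sub h2 hc
      simpa using this
    · have h2 : ¬ (c p : ℤ) ∣ (y : ℤ) - m0 := fun h => hc (hiff.mpr h)
      have h3 := (hor p hpI x hxS m0 hm0).resolve_left hc
      have h4 := (hor p hpI y hyS m0 hm0).resolve_left h2
      have := dvd_sub h4 h3
      simpa using this
  have h1 : (Q : ℤ) ∣ (y : ℤ) - x := by
    rw [hQ]; push_cast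
    refine Finset.prod_dvd_of_coprime ?_ hdiv
    intro p hp1 r hr1 hpr
    exact Nat.isCoprime_iff_coprime.mpr (hcop p hp1 r hr1 hpr)
  obtain ⟨d, hd⟩ := h1
  have hQZ : (0 : ℤ) < Q := by exact_mod_cast hQpos
  have hxyZ : (x : ℤ) < y := by exact_mod_cast hxy
  have hdpos : 0 < d := by
    by_contra hneg
    push Not at hneg
    have : (Q : ℤ) * d ≤ 0 := mul_nonpos_of_nonneg_of_nonpos hQZ.le hneg
    linarith
  refine ⟨d.toNat, ?_, ?_⟩
  · by_contra hgt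
    push Not at hgt
    have hdk : (k : ℤ) + 1 ≤ d := by omega
    have h7 := hsize y hyS x hxS (ne_of_gt hxy)
    have h8 : |(y : ℤ) - x| = Q * d := by rw [hd, abs_of_pos (mul_pos hQZ hdpos)]
    have h9 : (Q : ℤ) * d ≤ (y : ℤ) + x := by
      rw [← hd]
      have : (0 : ℤ) ≤ x := by positivity
      linarith
    rw [h8] at h7
    have h10 : ((Q : ℤ) * d) * (Q * d) ≤ (Q * d) * ((y : ℤ) + x) :=
      mul_le_mul_of_nonneg_left h9 (by positivity)
    have h11 : ((Q : ℤ) * (k + 1)) * (Q * (k + 1)) ≤ ((Q : ℤ) * d) * (Q * d) := by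
      have h12 : (Q : ℤ) * (k + 1) ≤ Q * d := mul_le_mul_of_nonneg_left hdk hQZ.le
      exact mul_le_mul h12 h12 (by positivity) (by positivity)
    have h13 : (2 * N : ℤ) ≤ (k + 1) ^ 2 * Q := by exact_mod_cast hk
    have h14 : (q : ℤ) ≤ 2 * Q := by exact_mod_cast hprod
    have h15 : (q : ℤ) * N ≤ (2 * Q) * N := mul_le_mul_of_nonneg_right h14 (by positivity)
    have h16 : (Q : ℤ) * (2 * N) ≤ Q * ((k + 1) ^ 2 * Q) := mul_le_mul_of_nonneg_left h13 hQZ.le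
    have h17 : (Q : ℤ) * ((k + 1) ^ 2 * Q) = ((Q : ℤ) * (k + 1)) * (Q * (k + 1)) := by ring
    have h18 : (2 * (Q : ℤ)) * N = Q * (2 * N) := by ring
    linarith
  · have h1 : ((d.toNat : ℕ) : ℤ) = d := Int.toNat_of_nonneg hdpos.le
    have : (y : ℤ) = x + Q * (d.toNat : ℤ) := by rw [h1]; linarith
    exact_mod_cast this

end Pool.Helper30.Rudin
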