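import Mathlib
import Pool.Agent.Helper30.Rudin.Core
import Pool.Agent.Helper30.Rudin.Small
import Pool.Agent.Helper30.Rudin.Choose
import Pool.Agent.Helper30.Hall.Div

/-! Squares in arithmetic progressions. -/

namespace Pool.Helper30.Rudin

open Finset

/-- the prime power at `p`; at `2` one factor `2` is dropped. -/
def MM (q p : ℕ) : ℕ := if p = 2 then 2 ^ (q.factorization 2 - 1) else p ^ (q.factorization p)

/-- the modulus deciding the sign. -/
def cc (p : ℕ) : ℕ := if p = 2 then 4 else p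

theorem MM_pos (q : ℕ) (p : ℕ) (hp : p ∈ q.primeFactors) : 1 ≤ MM q p := by
  have := (Nat.prime_of_mem_primeFactors hp).pos
  unfold MM
  split_ifs
  · exact Nat.one_le_two_pow
  · exact Nat.one_le_pow _ _ this

theorem MM_coprime (q : ℕ) (p : ℕ) (hp : p ∈ q.primeFactors) (r : ℕ) (hr : r ∈ q.primeFactors)
    (hpr : p ≠ r) : Nat.Coprime (MM q p) (MM q r) := by
  have h1 : Nat.Coprime p r :=
    (Nat.coprime_primes (Nat.prime_of_mem_primeFactors hp) (Nat.prime_of_mem_primeFactors hr)).mpr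
      hpr
  unfold MM
  split_ifs with h2 h3 h3
  · exact absurd (h2.trans h3.symm) hpr
  · subst h2
    exact Nat.Coprime.pow _ _ h1
  · subst h3
    exact Nat.Coprime.pow _ _ h1
  · exact Nat.Coprime.pow _ _ h1

theorem MM_ne_one (q : ℕ) (p : ℕ) (hp : p ∈ q.primeFactors) (h2 : p ≠ 2) : MM q p ≠ 1 := by
  have hpp := Nat.prime_of_mem_primeFactors hp
  unfold MM
  rw [if_neg h2]
  have hv : q.factorization p ≠ 0 := by
    have := Nat.support_factorization q
    rw [← Finsupp.mem_support_iff, this]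
    exact hp
  exact (Nat.one_lt_pow hv hpp.one_lt).ne'

theorem MM_inj (q : ℕ) (p : ℕ) (hp : p ∈ q.primeFactors) (r : ℕ) (hr : r ∈ q.primeFactors)
    (h : MM q p = MM q r) : p = r := by
  by_contra hpr
  have h1 := MM_coprime q p hp r hr hpr
  have h2 : MM q p = 1 := by
    rw [← h] at h1
    exact (Nat.coprime_self _).mp h1
  have h3 : MM q r = 1 := by rw [← h]; exact h2
  by_cases hp2 : p = 2
  · have hr2 : r ≠ 2 := fun h' => hpr (hp2.trans h'.symm)
    exact MM_ne_one q r hr hr2 h3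
  · exact MM_ne_one q p hp hp2 h2

theorem le_prod_MM (q : ℕ) (hq : 1 ≤ q) : q ≤ 2 * ∏ p ∈ q.primeFactors, MM q p := by
  have h0 : ∏ p ∈ q.primeFactors, p ^ (q.factorization p) = q :=
    (Nat.prod_primeFactors_pow_factorization (Nat.one_le_iff_ne_zero.mp hq)).symm
  by_cases h2 : 2 ∈ q.primeFactors
  · have h3 : q = 2 ^ (q.factorization 2) * ∏ p ∈ q.primeFactors.erase 2, p ^ (q.factorization p) := by
      rw [Finset.mul_prod_erase _ (fun p => p ^ (q.factorization p)) h2, h0]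
    have h4 : ∏ p ∈ q.primeFactors, MM q p =
        2 ^ (q.factorization 2 - 1) * ∏ p ∈ q.primeFactors.erase 2, p ^ (q.factorization p) := by
      rw [← Finset.mul_prod_erase _ (fun p => MM q p) h2]
      congr 1
      apply Finset.prod_congr rfl
      intro p hp
      unfold MM
      rw [if_neg (Finset.ne_of_mem_erase hp)]
    have hv : q.factorization 2 ≠ 0 := by
      have := Nat.support_factorization q
      rw [← Finsupp.mem_support_iff, this]
      exact h2
    have hv1 : 1 ≤ q.factorization 2 := by omega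
    rw [h4, ← mul_assoc, ← pow_succ', Nat.sub_add_cancel hv1, ← h3]
  · have h4 : ∏ p ∈ q.primeFactors, MM q p = ∏ p ∈ q.primeFactors, p ^ (q.factorization p) := by
      apply Finset.prod_congr rfl
      intro p hp
      unfold MM
      have hne : p ≠ 2 := by
        rintro rfl
        exact h2 hp
      rw [if_neg hne]
    rw [h4, h0]
    omega

/-- The set of roots. -/
theorem exists_roots (N q a : ℕ) (hq : 1 ≤ q) :
    ∃ S : Finset ℕ, S.card = ((Finset.range N).filter (fun n => IsSquare (q * n + a))).card ∧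
      ∀ x ∈ S, ∃ n < N, x * x = q * n + a := by
  classical
  set F := (Finset.range N).filter (fun n => IsSquare (q * n + a)) with hF
  refine ⟨F.image (fun n => Nat.sqrt (q * n + a)), ?_, ?_⟩
  · apply Finset.card_image_of_injOn
    intro n hn m hm hnm
    rw [Finset.mem_coe, hF, Finset.mem_filter] at hn hm
    obtain ⟨r, hr⟩ := hn.2
    obtain ⟨s, hs⟩ := hm.2
    simp only at hnm
    rw [hr, hs, Nat.sqrt_eq, Nat.sqrt_eq] at hnm
    subst hnm
    have : q * n = q * m := by omega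
    exact Nat.eq_of_mul_eq_mul_left (by omega) this
  · intro x hx
    obtain ⟨n, hn, rfl⟩ := Finset.mem_image.mp hx
    rw [hF, Finset.mem_filter] at hn
    obtain ⟨r, hr⟩ := hn.2
    refine ⟨n, Finset.mem_range.mp hn.1, ?_⟩
    rw [hr, Nat.sqrt_eq]

section
variable {N q a : ℕ} {S : Finset ℕ}

theorem coprime_root (hco : Nat.Coprime q a) (hS : ∀ x ∈ S, ∃ n < N, x * x = q * n + a)
    (x : ℕ) (hx : x ∈ S) : Nat.Coprime x q := by
  obtain ⟨n, _, hn⟩ := hS x hx
  rw [Nat.coprime_comm]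
  have h1 : Nat.Coprime q (x * x) := by
    rw [hn]
    simpa [Nat.coprime_mul_left_add_right] using hco
  exact Nat.Coprime.coprime_mul_left_right h1

theorem dvd_root (hS : ∀ x ∈ S, ∃ n < N, x * x = q * n + a) (x : ℕ) (hx : x ∈ S) (y : ℕ)
    (hy : y ∈ S) : (q : ℤ) ∣ ((x : ℤ) - y) * ((x : ℤ) + y) := by
  obtain ⟨n, _, hn⟩ := hS x hx
  obtain ⟨m, _, hm⟩ := hS y hy
  refine ⟨(n : ℤ) - m, ?_⟩
  have hn' : (x : ℤ) * x = q * n + a := by exact_mod_cast hn
  have hm' : (y : ℤ) * y = q * m + a := by exact_mod_cast hm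
  have : ((x : ℤ) - y) * ((x : ℤ) + y) = x * x - y * y := by ring
  rw [this, hn', hm']
  ring

theorem size_root (hq : 1 ≤ q) (hS : ∀ x ∈ S, ∃ n < N, x * x = q * n + a) (x : ℕ) (hx : x ∈ S) (y : ℕ)
    (hy : y ∈ S) : |(x : ℤ) - y| * ((x : ℤ) + y) < (q : ℤ) * N := by
  obtain ⟨n, hnN, hn⟩ := hS x hx
  obtain ⟨m, hmN, hm⟩ := hS y hy
  have hn' : (x : ℤ) * x = q * n + a := by exact_mod_cast hn
  have hm' : (y : ℤ) * y = q * m + a := by exact_mod_cast hm
  have h1 : ((x : ℤ) - y) * ((x : ℤ) + y) = q * ((n : ℤ) - m) := by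
    have : ((x : ℤ) - y) * ((x : ℤ) + y) = x * x - y * y := by ring
    rw [this, hn', hm']
    ring
  have h2 : |(x : ℤ) - y| * ((x : ℤ) + y) = |((x : ℤ) - y) * ((x : ℤ) + y)| := by
    rw [abs_mul, abs_of_nonneg (by positivity : (0 : ℤ) ≤ (x : ℤ) + y)]
  rw [h2, h1, abs_mul, abs_of_nonneg (by positivity : (0 : ℤ) ≤ (q : ℤ))]
  have h3 : |(n : ℤ) - m| < N := by
    rw [abs_lt]
    constructor <;> omega
  have h4 : (0 : ℤ) < q := by exact_mod_cast hq
  exact mul_lt_mul_of_pos_left h3 h4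

theorem odd_root (hco : Nat.Coprime q a) (hS : ∀ x ∈ S, ∃ n < N, x * x = q * n + a)
    (h2 : 2 ∣ q) (x : ℕ) (hx : x ∈ S) : x % 2 = 1 := by
  have h1 := coprime_root hco hS x hx
  by_contra h
  have h3 : 2 ∣ x := by omega
  have := Nat.dvd_gcd h3 h2
  rw [h1] at this
  omega

theorem hor_root (hco : Nat.Coprime q a) (hS : ∀ x ∈ S, ∃ n < N, x * x = q * n + a)
    (p : ℕ) (hp : p ∈ q.primeFactors) (x : ℕ) (hx : x ∈ S) (y : ℕ) (hy : y ∈ S) :
    (cc p : ℤ) ∣ (x : ℤ) - y ∨ (cc p : ℤ) ∣ (x : ℤ) + y := by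
  have hpp := Nat.prime_of_mem_primeFactors hp
  have hpq := Nat.dvd_of_mem_primeFactors hp
  unfold cc
  split_ifs with h2
  · subst h2
    have hx1 := odd_root hco hS hpq x hx
    have hy1 := odd_root hco hS hpq y hy
    have : ((x : ℤ) - y) % 4 = 0 ∨ ((x : ℤ) + y) % 4 = 0 := by omega
    rcases this with h | h
    · left; exact Int.dvd_of_emod_eq_zero h
    · right; exact Int.dvd_of_emod_eq_zero h
  · have h1 : (p : ℤ) ∣ ((x : ℤ) - y) * ((x : ℤ) + y) :=
      (Int.natCast_dvd_natCast.mpr hpq).trans (dvd_root hS x hx y hy)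
    exact (Nat.prime_iff_prime_int.mp hpp).dvd_or_dvd h1

theorem key_dvd (hco : Nat.Coprime q a) (hS : ∀ x ∈ S, ∃ n < N, x * x = q * n + a)
    (p : ℕ) (hp : p ∈ q.primeFactors) (x : ℕ) (hx : x ∈ S) (u v : ℤ)
    (huv : (q : ℤ) ∣ u * v) (hsum : u + v = 2 * x ∨ u + v = - (2 * x) ∨ u - v = 2 * x ∨ v - u = 2 * x)
    (hc : (cc p : ℤ) ∣ u) : (MM q p : ℤ) ∣ u := by
  have hpp := Nat.prime_of_mem_primeFactors hp
  have hpq := Nat.dvd_of_mem_primeFactors hp
  have hcop := coprime_root hco hS x hx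
  unfold cc at hc
  unfold MM
  split_ifs at hc ⊢ with h2
  · subst h2
    have hx1 := odd_root hco hS hpq x hx
    have hc4 : (4 : ℤ) ∣ u := by exact_mod_cast hc
    obtain ⟨u', hu'⟩ := hc4
    -- v = 2 * odd
    obtain ⟨w, hw⟩ : ∃ w : ℤ, v = 2 * (2 * w + 1) := by
      rcases hsum with h | h | h | h
      · refine ⟨(v / 2 - 1) / 2, ?_⟩; omega
      · refine ⟨(v / 2 - 1) / 2, ?_⟩; omega
      · refine ⟨(v / 2 - 1) / 2, ?_⟩; omega
      · refine ⟨(v / 2 - 1) / 2, ?_⟩; omega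
    have hv : q.factorization 2 ≠ 0 := by
      have := Nat.support_factorization q
      rw [← Finsupp.mem_support_iff, this]
      exact hp
    have h3 : ((2 : ℤ) ^ (q.factorization 2)) ∣ u * v := by
      have : (2 ^ (q.factorization 2) : ℕ) ∣ q := Nat.ordProj_dvd q 2
      have h4 : ((2 ^ (q.factorization 2) : ℕ) : ℤ) ∣ q := Int.natCast_dvd_natCast.mpr this
      push_cast at h4
      exact h4.trans huv
    have h5 : (2 : ℤ) ^ (q.factorization 2) = 2 * 2 ^ (q.factorization 2 - 1) := by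
      rw [← pow_succ']
      congr 1
      omega
    rw [h5, hw] at h3
    have h6 : u * (2 * (2 * w + 1)) = 2 * (u * (2 * w + 1)) := by ring
    rw [h6] at h3
    have h7 : (2 : ℤ) ^ (q.factorization 2 - 1) ∣ u * (2 * w + 1) :=
      (mul_dvd_mul_iff_left (by norm_num : (2 : ℤ) ≠ 0)).mp h3
    have h8 : IsCoprime ((2 : ℤ) ^ (q.factorization 2 - 1)) (2 * w + 1) := by
      apply IsCoprime.pow_left
      exact ⟨-w, 1, by ring⟩
    push_cast
    exact h8.dvd_of_dvd_mul_right h7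
  · have hpu : (p : ℤ) ∣ u := hc
    have hpx : ¬ (p : ℤ) ∣ (x : ℤ) := by
      intro h
      have h3 : p ∣ x := by exact_mod_cast h
      have h4 := Nat.dvd_gcd h3 hpq
      rw [hcop] at h4
      exact hpp.one_lt.ne' (Nat.dvd_one.mp h4)
    have hp2 : ¬ (p : ℤ) ∣ 2 := by
      intro h
      have h3 : p ∣ 2 := by exact_mod_cast h
      exact h2 ((Nat.prime_dvd_prime_iff_eq hpp Nat.prime_two).mp h3)
    have hprime : Prime (p : ℤ) := Nat.prime_iff_prime_int.mp hpp
    have hpv : ¬ (p : ℤ) ∣ v := by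
      intro h
      have h3 : (p : ℤ) ∣ 2 * x := by
        rcases hsum with h' | h' | h' | h'
        · rw [← h']; exact dvd_add hpu h
        · rw [← dvd_neg, ← h']; exact dvd_add hpu h
        · rw [← h']; exact dvd_sub hpu h
        · rw [← h']; exact dvd_sub h hpu
      rcases hprime.dvd_or_dvd h3 with h4 | h4
      · exact hp2 h4
      · exact hpx h4
    have h3 : ((p : ℤ) ^ (q.factorization p)) ∣ u * v := by
      have : (p ^ (q.factorization p) : ℕ) ∣ q := Nat.ordProj_dvd q p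
      have h4 : ((p ^ (q.factorization p) : ℕ) : ℤ) ∣ q := Int.natCast_dvd_natCast.mpr this
      push_cast at h4
      exact h4.trans huv
    have h8 : IsCoprime ((p : ℤ) ^ (q.factorization p)) v := by
      apply IsCoprime.pow_left
      exact (Prime.coprime_iff_not_dvd hprime).mpr hpv
    push_cast
    exact h8.dvd_of_dvd_mul_right h3

end

theorem two_pow_card_le (q : ℕ) (hq : q ≠ 0) : 2 ^ q.primeFactors.card ≤ q.divisors.card := by
  rw [Nat.card_divisors hq, ← Finset.prod_const]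
  apply Finset.prod_le_prod'
  intro p hp
  have hv : q.factorization p ≠ 0 := by
    have := Nat.support_factorization q
    rw [← Finsupp.mem_support_iff, this]
    exact hp
  omega

theorem main (ε : ℝ) (hε : 0 < ε) : ∃ C : ℝ, ∀ N q a : ℕ, 1 ≤ N → 1 ≤ q → Nat.Coprime q a →
    (((Finset.range N).filter (fun n => IsSquare (q * n + a))).card : ℝ) ≤
      C * ((N : ℝ) ^ ε + Real.sqrt N * (q : ℝ) ^ (ε - 1 / 2) + (q.primeFactors.card : ℝ)) := by
  classical
  obtain ⟨e, he⟩ := exists_nat_gt (2 / ε)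
  have he0 : (0 : ℝ) < e := lt_trans (by positivity) he
  have he1 : 1 ≤ e := by
    have : 0 < e := by exact_mod_cast he0
    omega
  have he2 : 2 / (e : ℝ) ≤ ε := by
    rw [div_lt_iff₀ hε] at he
    rw [div_le_iff₀ he0]
    linarith
  obtain ⟨C1, hC1, h1⟩ := choose_bound e he1
  obtain ⟨C2, hC2, h2⟩ := Pool.Helper30.Hall.card_divisors_pow_le e
  refine ⟨C1 + 4 * C2, ?_⟩
  intro N q a hN hq hco
  have hN1 : (1 : ℝ) ≤ N := by exact_mod_cast hN
  have hq1 : (1 : ℝ) ≤ q := by exact_mod_cast hq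
  obtain ⟨S, hcard, hS⟩ := exists_roots N q a hq
  rw [← hcard]
  have hor := hor_root (S := S) hco hS
  have hm : ∀ p ∈ q.primeFactors, ∀ x ∈ S, ∀ y ∈ S, (cc p : ℤ) ∣ (x : ℤ) - y →
      (MM q p : ℤ) ∣ (x : ℤ) - y := by
    intro p hp x hx y hy hc
    refine key_dvd hco hS p hp x hx ((x : ℤ) - y) ((x : ℤ) + y) (dvd_root hS x hx y hy) ?_ hc
    left; ring
  have hp : ∀ p ∈ q.primeFactors, ∀ x ∈ S, ∀ y ∈ S, (cc p : ℤ) ∣ (x : ℤ) + y →
      (MM q p : ℤ) ∣ (x : ℤ) + y := by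
    intro p hp x hx y hy hc
    refine key_dvd hco hS p hp x hx ((x : ℤ) + y) ((x : ℤ) - y) ?_ ?_ hc
    · rw [mul_comm]; exact dvd_root hS x hx y hy
    · left; ring
  have hsize : ∀ x ∈ S, ∀ y ∈ S, x ≠ y → |(x : ℤ) - y| * ((x : ℤ) + y) < (q : ℤ) * N :=
    fun x hx y hy _ => size_root hq hS x hx y hy
  have hCC : (0 : ℝ) ≤ C1 + 4 * C2 := by positivity
  have hw0 : (0 : ℝ) ≤ (q.primeFactors.card : ℝ) := by positivity
  have hs0 : (0 : ℝ) ≤ Real.sqrt N * (q : ℝ) ^ (ε - 1 / 2) := by positivity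
  have hn0 : (0 : ℝ) ≤ (N : ℝ) ^ ε := by positivity
  by_cases hcase : 2 * N ≤ ∏ p ∈ q.primeFactors, MM q p
  · have h3 := h1 q.primeFactors (MM q) N S.card hN (MM_inj q) (MM_pos q) hcase
      (fun J hJ hJN => core S q N q.primeFactors (MM q) cc (MM_pos q) (MM_coprime q)
        (le_prod_MM q hq) hor hm hp hsize J hJ hJN)
    have h4 : (N : ℝ) ^ (2 / (e : ℝ)) ≤ (N : ℝ) ^ ε := Real.rpow_le_rpow_of_exponent_le hN1 he2
    have h5 : C1 * ((N : ℝ) ^ (2 / (e : ℝ)) + q.primeFactors.card) ≤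
        C1 * ((N : ℝ) ^ ε + Real.sqrt N * (q : ℝ) ^ (ε - 1 / 2) + (q.primeFactors.card : ℝ)) :=
      mul_le_mul_of_nonneg_left (by linarith) hC1
    have h6 : C1 * ((N : ℝ) ^ ε + Real.sqrt N * (q : ℝ) ^ (ε - 1 / 2) + (q.primeFactors.card : ℝ)) ≤
        (C1 + 4 * C2) * ((N : ℝ) ^ ε + Real.sqrt N * (q : ℝ) ^ (ε - 1 / 2) +
          (q.primeFactors.card : ℝ)) := by
      apply mul_le_mul_of_nonneg_right _ (by linarith)
      have : (0 : ℝ) ≤ C2 := by positivity
      linarith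
    linarith
  · push Not at hcase
    set Q := ∏ p ∈ q.primeFactors, MM q p with hQ
    have hQpos : 0 < Q := Finset.prod_pos (MM_pos q)
    set k := Nat.sqrt (2 * N / Q) with hk
    have hr1 : 1 ≤ 2 * N / Q := (Nat.one_le_div_iff hQpos).mpr hcase.le
    have hk1 : 1 ≤ k := by
      rw [hk, Nat.le_sqrt]
      simpa using hr1
    have hkk : 2 * N ≤ (k + 1) ^ 2 * Q := by
      have h3 : 2 * N / Q < (k + 1) * (k + 1) := Nat.lt_succ_sqrt _
      have h4 : 2 * N < ((k + 1) * (k + 1)) * Q := (Nat.div_lt_iff_lt_mul hQpos).mp h3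
      have h5 : (k + 1) ^ 2 * Q = ((k + 1) * (k + 1)) * Q := by ring
      omega
    have h3 := core_small S q N q.primeFactors (MM q) cc (MM_pos q) (MM_coprime q)
        (le_prod_MM q hq) hor hm hsize k hkk
    have h4 : (S.card : ℝ) ≤ ((k : ℝ) + 1) * 2 ^ q.primeFactors.card := by exact_mod_cast h3
    -- k ≤ 2 sqrt (N / q)
    have h5 : k * k * q ≤ 4 * N := by
      have h6 : k * k ≤ 2 * N / Q := Nat.sqrt_le _
      have h7 : k * k * Q ≤ 2 * N := (Nat.le_div_iff_mul_le hQpos).mp h6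
      have h8 := le_prod_MM q hq
      rw [← hQ] at h8
      calc k * k * q ≤ k * k * (2 * Q) := Nat.mul_le_mul_left _ h8
        _ = 2 * (k * k * Q) := by ring
        _ ≤ 2 * (2 * N) := Nat.mul_le_mul_left _ h7
        _ = 4 * N := by ring
    have h9 : (k : ℝ) ≤ 2 * (Real.sqrt N * (q : ℝ) ^ (-(1 / 2) : ℝ)) := by
      have h10 : (q : ℝ) ^ (-(1 / 2) : ℝ) = 1 / Real.sqrt q := by
        rw [Real.rpow_neg (by positivity), ← Real.sqrt_eq_rpow, one_div]
      rw [h10]
      have h11 : (0 : ℝ) < Real.sqrt q := Real.sqrt_pos.mpr (by positivity)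
      rw [mul_one_div, ← mul_div_assoc, le_div_iff₀ h11]
      have h12 : ((k : ℝ) * Real.sqrt q) ^ 2 ≤ (2 * Real.sqrt N) ^ 2 := by
        rw [mul_pow, mul_pow, Real.sq_sqrt (by positivity), Real.sq_sqrt (by positivity)]
        have h13 : ((k * k * q : ℕ) : ℝ) ≤ ((4 * N : ℕ) : ℝ) := by exact_mod_cast h5
        push_cast at h13
        have : (k : ℝ) ^ 2 * q = k * k * q := by ring
        rw [this]
        linarith
      exact (pow_le_pow_iff_left₀ (by positivity) (by positivity) (by norm_num)).mp h12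
    -- the number of sign patterns
    have h14 : (2 : ℝ) ^ q.primeFactors.card ≤ C2 * (q : ℝ) ^ ε := by
      have h15 : (2 ^ q.primeFactors.card) ^ e ≤ C2 * q :=
        (Nat.pow_le_pow_left (two_pow_card_le q (by omega)) e).trans (h2 q (by omega))
      have h16 : ((2 : ℝ) ^ q.primeFactors.card) ^ e ≤ C2 * q := by exact_mod_cast h15
      have h17 := rpow_le_of_pow_le he1 (by positivity) h16
      rw [Real.mul_rpow (by positivity) (by positivity)] at h17
      have hC2' : (1 : ℝ) ≤ C2 := by exact_mod_cast hC2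
      have h18 : (C2 : ℝ) ^ (1 / (e : ℝ)) ≤ C2 := by
        have : (C2 : ℝ) ^ (1 / (e : ℝ)) ≤ (C2 : ℝ) ^ (1 : ℝ) := by
          apply Real.rpow_le_rpow_of_exponent_le hC2'
          rw [div_le_one he0]
          exact_mod_cast he1
        rwa [Real.rpow_one] at this
      have h19 : (q : ℝ) ^ (1 / (e : ℝ)) ≤ (q : ℝ) ^ ε := by
        apply Real.rpow_le_rpow_of_exponent_le hq1
        refine le_trans ?_ he2
        gcongr
        norm_num
      refine h17.trans ?_
      gcongr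
    have h20 : (k : ℝ) + 1 ≤ 4 * (Real.sqrt N * (q : ℝ) ^ (-(1 / 2) : ℝ)) := by
      have : (1 : ℝ) ≤ k := by exact_mod_cast hk1
      linarith
    have h21 : (S.card : ℝ) ≤ (4 * (Real.sqrt N * (q : ℝ) ^ (-(1 / 2) : ℝ))) * (C2 * (q : ℝ) ^ ε) := by
      refine h4.trans ?_
      gcongr
    have h22 : (4 * (Real.sqrt N * (q : ℝ) ^ (-(1 / 2) : ℝ))) * (C2 * (q : ℝ) ^ ε) =
        4 * C2 * (Real.sqrt N * (q : ℝ) ^ (ε - 1 / 2)) := by
      have : (q : ℝ) ^ (ε - 1 / 2) = (q : ℝ) ^ ε * (q : ℝ) ^ (-(1 / 2) : ℝ) := by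
        rw [← Real.rpow_add (by positivity)]
        congr 1
      rw [this]
      ring
    rw [h22] at h21
    have h23 : 4 * (C2 : ℝ) * (Real.sqrt N * (q : ℝ) ^ (ε - 1 / 2)) ≤
        (C1 + 4 * C2) * ((N : ℝ) ^ ε + Real.sqrt N * (q : ℝ) ^ (ε - 1 / 2) +
          (q.primeFactors.card : ℝ)) := by
      have h24 : (0 : ℝ) ≤ C1 * (Real.sqrt N * (q : ℝ) ^ (ε - 1 / 2)) := mul_nonneg hC1 hs0
      have h25 : (0 : ℝ) ≤ (C1 + 4 * C2) * ((N : ℝ) ^ ε + (q.primeFactors.card : ℝ)) :=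
        mul_nonneg hCC (by linarith)
      have h26 : (C1 + 4 * C2) * ((N : ℝ) ^ ε + Real.sqrt N * (q : ℝ) ^ (ε - 1 / 2) +
          (q.primeFactors.card : ℝ)) = (C1 + 4 * C2) * ((N : ℝ) ^ ε + (q.primeFactors.card : ℝ)) +
          (C1 * (Real.sqrt N * (q : ℝ) ^ (ε - 1 / 2)) +
            4 * (C2 : ℝ) * (Real.sqrt N * (q : ℝ) ^ (ε - 1 / 2))) := by ring
      rw [h26]
      linarith
    linarith

end Pool.Helper30.Rudin
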